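import Mathlib

/-!
# Quadratic class field theory over number fields: common definitions
-/

set_option autoImplicit false

open NumberField IsDedekindDomain

namespace Pool.Agent.H32.QC

/-- the conic `z² = a x² + b y²` has a nontrivial point over `L` -/
def Sol {L : Type*} [Field L] (a b : L) : Prop :=
  ∃ x y z : L, (x ≠ 0 ∨ y ≠ 0 ∨ z ≠ 0) ∧ z ^ 2 = a * x ^ 2 + b * y ^ 2

open Classical in
/-- the Hilbert symbol of a field -/
noncomputable def hil {L : Type*} [Field L] (a b : L) : ℤ := if Sol a b then 1 else -1

/-- the diagonal quadratic form with coefficients `a` is isotropic over `L` -/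
def Iso {L : Type*} [Field L] {n : ℕ} (a : Fin n → L) : Prop :=
  ∃ x : Fin n → L, x ≠ 0 ∧ ∑ i, a i * x i ^ 2 = 0

/-- the finite places of a number field -/
abbrev FPl (K : Type) [Field K] [NumberField K] : Type := HeightOneSpectrum (𝓞 K)

/-- the places which are not complex: the finite places and the real embeddings -/
abbrev Pl (K : Type) [Field K] [NumberField K] : Type := FPl K ⊕ (K →+* ℝ)

/-- the embedding of a number field in its completion at a finite place -/
noncomputable abbrev ic {K : Type} [Field K] [NumberField K] (v : FPl K) :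
    K →+* v.adicCompletion K := algebraMap K (v.adicCompletion K)

/-- the Hilbert symbol at a place -/
noncomputable def hs {K : Type} [Field K] [NumberField K] (v : Pl K) (a b : K) : ℤ :=
  match v with
  | .inl v => hil (ic v a) (ic v b)
  | .inr φ => hil (φ a) (φ b)

/-- the element is a square at the place -/
def sqAt {K : Type} [Field K] [NumberField K] (v : Pl K) (a : K) : Prop :=
  match v with
  | .inl v => IsSquare (ic v a)
  | .inr φ => IsSquare (φ a)

/-- the diagonal form is isotropic at all places -/
def LocIso {K : Type} [Field K] [NumberField K] {n : ℕ} (a : Fin n → K) : Prop :=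
  (∀ v : FPl K, Iso fun i => ic v (a i)) ∧ ∀ φ : K →+* ℝ, Iso fun i => φ (a i)

/-- the product formula -/
def ProdFormula (K : Type) [Field K] [NumberField K] : Prop :=
  ∀ a b : K, a ≠ 0 → b ≠ 0 →
    {v : Pl K | hs v a b ≠ 1}.Finite ∧ ∏ᶠ v : Pl K, hs v a b = 1

/-- Hasse's theorem for conics -/
def HasseConic (K : Type) [Field K] [NumberField K] : Prop :=
  ∀ a b : K, a ≠ 0 → b ≠ 0 → (∀ v : Pl K, hs v a b = 1) → Sol a b

/-- elements with prescribed symbols against `a` -/
def Prescribed (K : Type) [Field K] [NumberField K] : Prop :=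
  ∀ (a : K) (e : Pl K → ℤ), a ≠ 0 → (∀ v, e v = 1 ∨ e v = -1) → {v | e v ≠ 1}.Finite →
    ∏ᶠ v, e v = 1 → (∀ v, e v = -1 → ¬ sqAt v a) → ∃ b : K, b ≠ 0 ∧ ∀ v, hs v a b = e v

/-- the theorem of Hasse and Minkowski in at least three variables -/
def HasseMinkowski (K : Type) [Field K] [NumberField K] : Prop :=
  ∀ (n : ℕ) (a : Fin n → K), 3 ≤ n → (∀ i, a i ≠ 0) → LocIso a → Iso a

end Pool.Agent.H32.QC
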