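import Pool.Agent.H32.QC.Defs

/-!
# Quadratic class field theory: the local block
-/

set_option autoImplicit false

open NumberField IsDedekindDomain

namespace Pool.Agent.H32.QC

/-! ### Definitions of the local block -/

/-- the number of square classes -/
noncomputable def nsq (L : Type*) [Field L] : ℕ := (powMonoidHom 2 : Lˣ →* Lˣ).range.index

/-- all norm groups of quadratic extensions have index two -/
def NI (L : Type*) [Field L] : Prop :=
  ∀ t : L, t ≠ 0 → ¬ IsSquare t → ∃ N : Subgroup Lˣ, N.index = 2 ∧ ∀ b : Lˣ, b ∈ N ↔ Sol t (b : L)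

section ball

variable (K : Type*) [NormedField K] [IsUltrametricDist K]

/-- the elements which are at most as large as `c` -/
def Bl (c : K) : AddSubgroup K where
  carrier := {x | ‖x‖ ≤ ‖c‖}
  zero_mem' := by simp
  add_mem' := by
    intro x y hx hy
    exact (IsUltrametricDist.norm_add_le_max x y).trans (max_le hx hy)
  neg_mem' := by
    intro x hx
    simpa using hx

/-- the units which are congruent to one modulo `c` -/
def Un (c : K) : Subgroup Kˣ where
  carrier := {x | ‖(x : K) - 1‖ ≤ ‖c‖ ∧ ‖(x : K)‖ = 1}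
  one_mem' := by simp
  mul_mem' := by
    intro x y hx hy
    refine ⟨?_, by simp [hx.2, hy.2]⟩
    have h : ((x * y : Kˣ) : K) - 1 = ((x : K) - 1) * y + ((y : K) - 1) := by
      push_cast
      ring
    rw [h]
    refine (IsUltrametricDist.norm_add_le_max _ _).trans (max_le ?_ hy.1)
    rw [norm_mul, hy.2, mul_one]
    exact hx.1
  inv_mem' := by
    intro x hx
    have h2 : ‖((x⁻¹ : Kˣ) : K)‖ = 1 := by
      rw [Units.val_inv_eq_inv_val, norm_inv, hx.2, inv_one]
    refine ⟨?_, h2⟩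
    have h : ((x⁻¹ : Kˣ) : K) - 1 = -(((x⁻¹ : Kˣ) : K) * ((x : K) - 1)) := by
      rw [mul_sub, Units.inv_mul, mul_one]
      ring
    rw [h, norm_neg, norm_mul, h2, one_mul]
    exact hx.1

/-- the order of `O / 2 O` -/
noncomputable def c2 : ℕ := (Bl K 2).relIndex (Bl K 1)

end ball

/-! ### Groups -/

/-- the index of the squares, computed in a subgroup of finite index -/
def T_SQI : Prop := ∀ (A : Type) [CommGroup A] (U : Subgroup A), U.index ≠ 0 →
  (∀ u ∈ U, u ^ 2 = 1 → u = 1) → Nat.card {a : A // a ^ 2 = 1} = 2 →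
  (powMonoidHom 2 : A →* A).range.index = 2 * (U.map (powMonoidHom 2)).relIndex U

/-- the index of `2 A` is the same for all subgroups of finite index -/
def T_TFI : Prop := ∀ (A : Type) [AddCommGroup A], (∀ x : A, 2 • x = 0 → x = 0) →
  ∀ B : AddSubgroup A, B.index ≠ 0 →
  (nsmulAddMonoidHom 2 : A →+ A).range.index = (B.map (nsmulAddMonoidHom 2)).relIndex B

/-- the algebraic lemma behind the norm index -/
def T_AL : Prop := ∀ (M : Type) [CommGroup M] (s : M →* M), (∀ x, s (s x) = x) →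
  (∀ x, x * s x = 1 → ∃ y, x = y / s y) → ∀ B : Subgroup M, (∀ x, x ∈ B ↔ s x = x) →
  (powMonoidHom 2 : M →* M).range.index ≠ 0 →
  (B.map (powMonoidHom 2)).relIndex B ≠ 0 →
  (B.map (powMonoidHom 2)).relIndex (B ⊓ (powMonoidHom 2 : M →* M).range) = 2 →
  2 * (powMonoidHom 2 : M →* M).range.index * (MonoidHom.id M * s).range.relIndex B =
    ((B.map (powMonoidHom 2)).relIndex B) ^ 2

/-- norm index and square classes for a quadratic extension of fields -/
def T_NIA : Prop := ∀ (K L : Type) [Field K] [Field L] [Algebra K L] (t : K) (s : L),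
  (2 : K) ≠ 0 → ¬ IsSquare t → s ^ 2 = algebraMap K L t → Module.finrank K L = 2 →
  nsq K ≠ 0 → nsq L ≠ 0 →
  ∃ N : Subgroup Kˣ, (∀ b : Kˣ, b ∈ N ↔ Sol t (b : K)) ∧ 2 * nsq L * N.index = nsq K ^ 2

/-! ### Local fields -/

/-- squaring on small units -/
def T_HEN : Prop := ∀ (K : Type) [NontriviallyNormedField K] [IsUltrametricDist K]
  [CompleteSpace K] [CharZero K] (c : K), c ≠ 0 → ‖c‖ < ‖(2 : K)‖ →
  (Un K c).map (powMonoidHom 2) = Un K (2 * c)

/-- the index of small units -/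
def T_UIX : Prop := ∀ (K : Type) [NontriviallyNormedField K] [IsUltrametricDist K]
  [ProperSpace K] [CharZero K] (c : K), c ≠ 0 → ‖c‖ < 1 → ‖c‖ ≤ ‖(2 : K)‖ →
  (Un K (2 * c)).relIndex (Un K c) = c2 K

/-- finiteness of the indices -/
def T_OFI : Prop := ∀ (K : Type) [NontriviallyNormedField K] [IsUltrametricDist K]
  [ProperSpace K] (c : K), c ≠ 0 →
  (Un K c).relIndex (Un K 1) ≠ 0 ∧ ∀ d : K, (Bl K c).relIndex (Bl K d) ≠ 0

/-- the value group is cyclic -/
def T_VAL : Prop := ∀ (K : Type) [NontriviallyNormedField K] [IsUltrametricDist K]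
  [ProperSpace K], ∃ π : K, π ≠ 0 ∧ ‖π‖ < 1 ∧ ∀ x : K, x ≠ 0 → ∃ n : ℤ, ‖x‖ = ‖π‖ ^ n

/-- the number of square classes of a local field -/
def T_CAR : Prop := ∀ (K : Type) [NontriviallyNormedField K] [IsUltrametricDist K]
  [ProperSpace K] [CharZero K], nsq K = 4 * c2 K ∧ c2 K ≠ 0

/-- `O / 2 O` in a quadratic extension -/
def T_CSQ : Prop := ∀ (K L : Type) [NontriviallyNormedField K] [IsUltrametricDist K]
  [ProperSpace K] [CharZero K] [NontriviallyNormedField L] [IsUltrametricDist L]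
  [ProperSpace L] [CharZero L] [NormedAlgebra K L], Module.finrank K L = 2 →
  c2 L = c2 K ^ 2

/-- a quadratic extension of a local field is a local field -/
def T_QEX : Prop := ∀ (K : Type) [NontriviallyNormedField K] [IsUltrametricDist K]
  [ProperSpace K] [CharZero K] (t : K), ¬ IsSquare t →
  ∃ (L : Type) (_ : NontriviallyNormedField L) (_ : IsUltrametricDist L) (_ : ProperSpace L)
    (_ : CharZero L) (_ : NormedAlgebra K L) (s : L),
    Module.finrank K L = 2 ∧ s ^ 2 = algebraMap K L t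

/-- the local norm index -/
def T_NIX : Prop := ∀ (K : Type) [NontriviallyNormedField K] [IsUltrametricDist K]
  [ProperSpace K] [CharZero K], NI K

/-- squares are open -/
def T_OPN : Prop := ∀ (K : Type) [NontriviallyNormedField K] [IsUltrametricDist K]
  [CompleteSpace K] [CharZero K] (c0 : K), c0 ≠ 0 →
  ∃ e : ℝ, 0 < e ∧ ∀ c : K, ‖c - c0‖ < e → c ≠ 0 ∧ IsSquare (c / c0)

/-- units at odd places -/
def T_UNR : Prop := ∀ (K : Type) [NontriviallyNormedField K] [IsUltrametricDist K]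
  [ProperSpace K] [CharZero K], ‖(2 : K)‖ = 1 →
  (∀ a b : K, ‖a‖ = 1 → ‖b‖ = 1 → Sol a b) ∧
  (∀ a b c : K, ‖a‖ = 1 → ‖b‖ = 1 → (∃ d : K, ‖c‖ = ‖d‖ ^ 2) → Sol a (b * c)) ∧
  ∀ a : Fin 3 → K, (∀ i, ‖a i‖ = 1) → Iso a

/-- a nonsquare unit at an odd place -/
def T_TAM : Prop := ∀ (K : Type) [NontriviallyNormedField K] [IsUltrametricDist K]
  [CompleteSpace K] [CharZero K], ‖(2 : K)‖ = 1 → ∀ u b : K, ‖u‖ = 1 → ¬ IsSquare u →
  b ≠ 0 → (∀ d : K, ‖b‖ ≠ ‖d‖ ^ 2) → ¬ Sol u b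

/-! ### Algebra of the symbol -/

/-- bimultiplicativity -/
def T_BIM : Prop := ∀ (L : Type) [Field L], (2 : L) ≠ 0 → NI L → ∀ a b c : L, a ≠ 0 → b ≠ 0 →
  c ≠ 0 → hil a (b * c) = hil a b * hil a c

/-- nondegeneracy and common slots -/
def T_NDG : Prop := ∀ (L : Type) [Field L], (2 : L) ≠ 0 → NI L → ∀ t u : L, t ≠ 0 → u ≠ 0 →
  ¬ IsSquare t → ¬ IsSquare u → ∃ z : L, z ≠ 0 ∧ hil t z = -1 ∧ hil u z = -1

/-- ternary forms -/
def T_TER : Prop := ∀ (L : Type) [Field L], (2 : L) ≠ 0 → NI L → ∀ a b c x : L, a ≠ 0 →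
  b ≠ 0 → c ≠ 0 → x ≠ 0 → ¬ IsSquare (-(a * b * c * x)) →
  ∃ y z w : L, a * y ^ 2 + b * z ^ 2 + c * w ^ 2 = x

/-- quaternary forms whose discriminant is not a square -/
def T_QUA : Prop := ∀ (L : Type) [Field L], (2 : L) ≠ 0 → NI L → ∀ a : Fin 4 → L,
  (∀ i, a i ≠ 0) → ¬ IsSquare (∏ i, a i) → Iso a

/-- forms in five variables -/
def T_QUI : Prop := ∀ (L : Type) [Field L], (2 : L) ≠ 0 → NI L → 2 < nsq L →
  ∀ (n : ℕ) (a : Fin n → L), 5 ≤ n → (∀ i, a i ≠ 0) → Iso a

/-- quaternary forms are universal -/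
def T_UNI : Prop := ∀ (L : Type) [Field L], (2 : L) ≠ 0 → NI L → 2 < nsq L →
  ∀ (n : ℕ) (a : Fin n → L), 4 ≤ n → (∀ i, a i ≠ 0) → ∀ x : L, x ≠ 0 →
  ∃ y : Fin n → L, ∑ i, a i * y i ^ 2 = x

/-! ### Real numbers -/

/-- the real field -/
def T_REA : Prop := NI ℝ ∧ nsq ℝ = 2 ∧ ∀ a b : ℝ, a ≠ 0 → b ≠ 0 →
  (hil a b = -1 ↔ a < 0 ∧ b < 0)

/-! ### Completions of number fields -/

/-- the completion is a local field -/
def T_ADC : Prop := ∀ (K : Type) [Field K] [NumberField K] (v : FPl K),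
  ProperSpace (v.adicCompletion K) ∧ CharZero (v.adicCompletion K) ∧
    ∃ x : v.adicCompletion K, 1 < ‖x‖

/-- approximation of local integers by integers -/
def T_APR : Prop := ∀ (K : Type) [Field K] [NumberField K] (v : FPl K)
  (y : v.adicCompletion K) (e : ℝ), 0 < e → (∃ x : K, ‖ic v x - y‖ < e) ∧
    (‖y‖ ≤ 1 → ∃ x : 𝓞 K, ‖ic v x - y‖ < e)

/-- the order of `O / 2 O` in a completion -/
def T_CTW : Prop := ∀ (K : Type) [Field K] [NumberField K] (v : FPl K),
  (c2 (v.adicCompletion K) : ℝ) * ‖(2 : v.adicCompletion K)‖ = 1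

/-- the local norm index and the number of square classes -/
def T_NIV : Prop := ∀ (K : Type) [Field K] [NumberField K] (v : FPl K),
  (2 : v.adicCompletion K) ≠ 0 ∧ NI (v.adicCompletion K) ∧
    (nsq (v.adicCompletion K) : ℝ) * ‖(2 : v.adicCompletion K)‖ = 4

/-- squares are open -/
def T_OPV : Prop := ∀ (K : Type) [Field K] [NumberField K] (v : FPl K)
  (c0 : v.adicCompletion K), c0 ≠ 0 → ∃ e : ℝ, 0 < e ∧
    ∀ c : v.adicCompletion K, ‖c - c0‖ < e → c ≠ 0 ∧ IsSquare (c / c0)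

/-- odd places -/
def T_ODD : Prop := ∀ (K : Type) [Field K] [NumberField K] (v : FPl K),
  v.valuation K 2 = 1 → ∀ u : K, v.valuation K u = 1 →
  (∀ (b : K) (n : ℤ), v.valuation K b = WithZero.exp n →
    (Even n → hs (.inl v) u b = 1) ∧ (Odd n → ¬ sqAt (.inl v) u → hs (.inl v) u b = -1)) ∧
  ∀ a : Fin 3 → K, (∀ i, v.valuation K (a i) = 1) → Iso fun i => ic v (a i)

/-! ### All places -/

/-- the symbol is a sign and depends only on the square classes -/
def T_PSG : Prop := ∀ (K : Type) [Field K] [NumberField K] (v : Pl K) (a b : K), a ≠ 0 →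
  b ≠ 0 → (hs v a b = 1 ∨ hs v a b = -1) ∧ hs v a b = hs v b a ∧ (sqAt v a → hs v a b = 1) ∧
    (∀ c : K, c ≠ 0 → sqAt v (b * c) → hs v a b = hs v a c)

/-- bimultiplicativity at all places -/
def T_PBM : Prop := ∀ (K : Type) [Field K] [NumberField K] (v : Pl K) (a b c : K), a ≠ 0 →
  b ≠ 0 → c ≠ 0 → hs v a (b * c) = hs v a b * hs v a c

/-- common slots at all places -/
def T_PND : Prop := ∀ (K : Type) [Field K] [NumberField K] (v : Pl K) (t u : K), t ≠ 0 →
  u ≠ 0 → ¬ sqAt v t → ¬ sqAt v u → ∃ z : K, z ≠ 0 ∧ hs v t z = -1 ∧ hs v u z = -1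

/-- the symbol is trivial at almost all places -/
def T_PFS : Prop := ∀ (K : Type) [Field K] [NumberField K] (a b : K), a ≠ 0 → b ≠ 0 →
  {v : Pl K | hs v a b ≠ 1}.Finite

end Pool.Agent.H32.QC
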